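import Pool.Agent.R532.GrpProofs

/-!
# Algebraic proofs of non-isomorphism of groups need degree of order `log n`

Isomorphism of groups given by multiplication tables is a special case of graph isomorphism (the
Latin square graph of the table) that is decided in time `n ^ O(log n)`, and no better exponent than
`O(log n)` is known. For every odd prime `p` and every `d ≥ 1` there are two non-isomorphic groups of
the same order `n = p ^ r`, `r ≤ 2022 d`, of exponent `p` and class two, such that for the system of
polynomial equations that says that the Latin square graphs are isomorphic

* the polynomial calculus has no refutation of degree `d` over any field of characteristic different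
  from `p`,
* the Positivstellensatz calculus (so also sum-of-squares proofs, the Lasserre hierarchy) has no
  refutation of degree `d`,

and such that at the same time the invertible-map test of dimension `d` over all fields of
characteristic different from `p` does not distinguish the graphs. So no combination of these
methods with degree or dimension below `c log n` decides isomorphism of groups.

Definitions used in the statement: `IsoAxiom` (`Pool/Agent/TH658/Sos/Defs.lean`: the equations
`x ^ 2 = x`, row and column sums equal to one, products zero for pairs that violate equality or
adjacency), `PCDerives`, `PCRefutes`, `PosRefutes` (`Pool/Agent/TH658/Sos/PcDefs.lean`), `IMEquiv`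
(`Pool/Agent/TH658/Sos/ImDefs.lean`), `ExpClassTwo` (`Pool/Agent/W879/GW/Main.lean`), `latinGraph`
(`Pool/Agent/W185/LSQ/Latin.lean`).

The groups live on `A × B × Γ` with `Γ = F_p ^ 6`, where `B` is a space of linear maps `A → Γ`, with
the product `(x, c, z) (y, d, z') = (x + y, c + d, z + z' + f x y + c y - d x)`. The group of linear
maps `A → B` acts by shears, local solutions of the affine system `M x y - M y x = f x y` can be
extended, and averages over the local solutions give the dual objects for the proof systems.
-/

set_option autoImplicit false

namespace Pool.Agent.Results.MP_f1a348_lc.AlgebraicProofsForGroups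

open Pool.Agent.W185.SRG Pool.Agent.W185.LSQ Pool.Agent.W879.GW Pool.Agent.TH658.Sos

theorem result (p : ℕ) (hp : p.Prime) (hp2 : p ≠ 2) (d : ℕ) (hd : 1 ≤ d) :
    ∃ (G H : Type) (_ : Group G) (_ : Group H) (_ : Fintype G) (_ : Fintype H) (r : ℕ),
      r ≤ 2022 * d ∧ Fintype.card G = p ^ r ∧ Fintype.card H = p ^ r ∧
      ExpClassTwo p G ∧ ExpClassTwo p H ∧ IsEmpty (G ≃* H) ∧
      IsEmpty (latinGraph (fun a b : G => a * b) ≃g latinGraph (fun a b : H => a * b)) ∧
      (∀ (K : Type) [Field K], (p : K) ≠ 0 → ¬ PCRefutes K (latinGraph fun a b : G => a * b)
        (latinGraph fun a b : H => a * b) d) ∧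
      ¬ PosRefutes (latinGraph fun a b : G => a * b) (latinGraph fun a b : H => a * b) d ∧
      IMEquiv p d (latinGraph fun a b : G => a * b) (latinGraph fun a b : H => a * b) :=
  Pool.Agent.R532.GrpProofs.groups p hp hp2 d hd

end Pool.Agent.Results.MP_f1a348_lc.AlgebraicProofsForGroups
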