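import Pool.Agent.R542.GI.Filter

/-!
# Compositional tests: every such test is complete, or leaves the whole of graph isomorphism open

Call an equivalence relation `R` on finite graphs compositional if it contains isomorphism and if
`R A B` implies `R (A + Z) (B + Z)` for every graph `Z` (disjoint union) and `R Aᶜ Bᶜ`
(complements). Indistinguishability by the `k`-dimensional Weisfeiler-Leman method (bijective pebble
game), conjugacy of the adjacency matrices under an orthogonal matrix that fixes the all-ones
vector, and many other incomplete isomorphism tests are of this kind.

For every finite list of compositional relations (computable or not): either one of them is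
isomorphism itself, or graph isomorphism is as hard on the pairs related by all of them as in
general (`AsHardAsGI`): instances of graph isomorphism are translated in polynomial time into such
pairs of graphs, with equal numbers of vertices, and graph isomorphism is in `P` if and only if some
polynomial-time function gives the right answer on all such pairs. So no finite number of
incomplete compositional tests together lowers the difficulty of graph isomorphism.

In particular (the second part of the statement), for every fixed `k`, graph isomorphism is as hard
on the pairs of graphs that are at the same time not distinguished by the `k`-dimensional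
Weisfeiler-Leman method and cospectral with cospectral complements.

Given `X`, `Y` related by `R` and not isomorphic, `(A, B)` is sent to
`(P(A, X) + P(B, Y), P(A, Y) + P(B, X))`, `P(U, V)` the join of `U` plus an isolated vertex and `V`
plus an isolated vertex. With `(U, V)` related by `R'` in the place of `(A, B)`, the two new graphs
are related by `R` and by `R'`.

Definitions used in the statement: `FinGraph` (`Pool/Agent/H692R2/FinGraph.lean`), `bits`,
`PolyTime`, `InPP` (`Pool/Agent/NPC`), `WLEquivalent` (`Pool/Agent/W185/SRG/Defs.lean`), `GIso`
(`Pool/Agent/R542/GI/Core.lean`), `IsoF`, `fsum`, `fcompl` (`Pool/Agent/R542/GI/Comb.lean`),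
`Compositional` (`Pool/Agent/R542/GI/Dichotomy.lean`), `am`, `CoCospectral`
(`Pool/Agent/R542/GI/Cosp.lean`), `AsHardAsGI` (`Pool/Agent/R542/GI/Filter.lean`).
-/

set_option autoImplicit false

namespace Pool.Agent.Results.MP_f1a348_lc.CompositionalTests

open Pool.Agent.NPC Pool.Agent.H692R2 Pool.Agent.NPC.R542.GI Pool.Agent.W185.SRG

theorem result :
    (∀ L : List (FinGraph → FinGraph → Prop), (∀ R ∈ L, Compositional R) →
      (∃ R ∈ L, ∀ A B, R A B ↔ GIso (A, B)) ∨ AsHardAsGI (fun A B => ∀ R ∈ L, R A B)) ∧
    (∀ k : ℕ, AsHardAsGI (fun A B => WLEquivalent k A.graph B.graph ∧ CoCospectral A B)) :=
  filter_main

end Pool.Agent.Results.MP_f1a348_lc.CompositionalTests
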