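import Pool.Agent.R892.SR.Fin

set_option autoImplicit false

/-!
# The sign rank of graph isomorphism is `2 ^ Θ~(n)`

We consider real functions `T` of two graphs `G`, `H` with the vertices `0, …, n-1` which are
positive exactly if `G` and `H` are isomorphic (`Decides`). All results are about such sign
representations, that is about randomised models with unbounded error. The graph `G` is known to
everybody; only the dependence on `H` is restricted. (`Indep f A`: the function `f` of graphs does not
depend on the pairs of vertices inside `A`.)

* Sign rank, lower bound: if `T` is the sum of `s` products `f i * g i`, where the `f i` do not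
  depend on the pairs of `H` inside `B` and the `g i` do not depend on the pairs of `H` inside `A`,
  for disjoint sets `A`, `B` of at least `16 q` vertices, then `(s + 1) ^ 2 ≥ 2 ^ q`. So randomised
  protocols with unbounded error for two players who do not know the pairs of `H` inside `B` and
  inside `A`, respectively, need at least `q / 2 - O(1)` bits, although both know `G` and all the
  other pairs of `H`.
* Sign rank, upper bound: there is such a representation with `s ≤ 2 ^ (4 n ⌈log₂ n⌉ ^ 2)` products,
  for all disjoint `A` and `B`. (The trivial bound is exponential in the number of pairs inside `A`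
  or `B`, of order `n ^ 2`.)
* Passes: if `T` is computed in `p` passes over the vertices of `H` (in any fixed order) with a state
  in `ℝ ^ w`, which is multiplied by matrices depending arbitrarily on the vertex, on its adjacency
  to the vertices before it and on `G`, then `(w ^ (2 p) + 1) ^ 2 ≥ 2 ^ (n / 32)`. This contains
  the randomised streaming algorithms with `w` states and unbounded error.
* Two layers: if `T` is a sum of `s` arbitrary functions of integer linear forms in the bits of `H`
  with coefficients of absolute value at most `W`, then
  `(s (2 n ^ 2 W + 1) + 1) ^ 2 ≥ 2 ^ (n / 32)`. This contains the threshold circuits of depth two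
  with arbitrary weights at the output gate and integer weights of absolute value at most `W` at
  the other gates.

Proof. Lower bounds: consider permutations `π 0, …, π (N-1)` of four points, and the graph with `N`
columns of four vertices, arranged in a cycle, where consecutive columns are joined by the matchings
`π j`. It is isomorphic to the graph of the identity permutations if and only if the product of the
permutations is the identity. With two reflections `a`, `b` of a square, `(b ^ y a ^ x) ^ 2` is the
rotation by two if `x = y = 1` and the identity otherwise. So isomorphism contains the parity of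
the scalar product of two bit vectors, with `32` vertices for each bit, and Forster's theorem applies
(the form of `Pool/Agent/R532/ParRank.lean`, which is due to helper532 who treated the Euclidean
travelling salesman problem in this way). Upper bound: two graphs which contain all graphs with at
most `ℓ` edges equally often are isomorphic if `2 ^ ℓ > n!` (Müller), and so `1 / 2` minus the sum of
the squares of the differences of the numbers of copies is a polynomial of degree `2 ℓ` with the
right sign; each of its monomials is a product of two functions of the players.
-/

namespace Pool.Agent.Results.MP_f1a348_lc.SignRank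

open Matrix Pool.Agent.R892.SR

open Classical in
/-- **The sign rank of graph isomorphism.** In all parts the real function of the two graphs `G`, `H`
with `n` vertices is positive exactly if they are isomorphic. -/
theorem result (n : ℕ) (hn : 2 ≤ n) :
    (∀ (q s : ℕ) (A B : Finset (Fin n))
      (f g : Fin s → SimpleGraph (Fin n) → SimpleGraph (Fin n) → ℝ),
      Disjoint A B → 16 * q ≤ A.card → 16 * q ≤ B.card →
      (∀ i G, Indep (f i G) B) → (∀ i G, Indep (g i G) A) →
      Decides (fun G H => ∑ i, f i G H * g i G H) → 2 ^ q ≤ (s + 1) ^ 2) ∧
    (∀ A B : Finset (Fin n), Disjoint A B →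
      ∃ (s : ℕ) (f g : Fin s → SimpleGraph (Fin n) → SimpleGraph (Fin n) → ℝ),
        s ≤ 2 ^ (4 * n * Nat.clog 2 n ^ 2) ∧
        (∀ i G, Indep (f i G) B) ∧ (∀ i G, Indep (g i G) A) ∧
        Decides fun G H => ∑ i, f i G H * g i G H) ∧
    (∀ (p w : ℕ) (π : Equiv.Perm (Fin n))
      (M : Fin p → Fin n → SimpleGraph (Fin n) → SimpleGraph (Fin n) → Matrix (Fin w) (Fin w) ℝ)
      (u v : SimpleGraph (Fin n) → Fin w → ℝ),
      (∀ k j G H H', (∀ i < j, H.Adj (π j) (π i) ↔ H'.Adj (π j) (π i)) →
        M k j G H = M k j G H') →
      Decides (fun G H =>
        (u G ᵥ* (List.ofFn fun k => (List.ofFn fun j => M k j G H).prod).prod) ⬝ᵥ v G) →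
      2 ^ (n / 32) ≤ (w ^ (2 * p) + 1) ^ 2) ∧
    (∀ (s W : ℕ) (α : Fin s → SimpleGraph (Fin n) → Sym2 (Fin n) → ℤ)
      (φ : Fin s → SimpleGraph (Fin n) → ℤ → ℝ), (∀ i G e, |α i G e| ≤ W) →
      Decides (fun G H => ∑ i, φ i G (∑ e : Sym2 (Fin n), if e ∈ H.edgeSet then α i G e else 0)) →
      2 ^ (n / 32) ≤ (s * (2 * (n ^ 2 * W) + 1) + 1) ^ 2) := by
  refine ⟨?_, fun A B hd => upper_rank hn A B hd, ?_, ?_⟩
  · intro q s A B f g hd hA hB hf hg h
    have key := rank_bound A B hd hA hB f g hf hg h
    rwa [Fintype.card_fin] at key
  · intro p w π M u v hM h
    exact stream_bound (m := n / 32) (by omega) p w π M hM u v h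
  · intro s W α φ hα h
    exact layer_bound' s W α φ hα h

end Pool.Agent.Results.MP_f1a348_lc.SignRank
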