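import Pool.Agent.R542.GI.Core

/-!
# Graph isomorphism has the full difficulty on pairs that the Weisfeiler-Leman method leaves open

There is a polynomial-time function that sends every pair `(A, B)` of finite graphs (coded by
adjacency matrices) to a pair `(A', B')` of graphs with the same number `N` of vertices, such that
`A' ≅ B'` if and only if `A ≅ B`, and such that for no `k ≤ √(N / 32)` the `k`-dimensional
Weisfeiler-Leman method (the version that refines the colour of a `k`-tuple by the colours of all
`k` one-coordinate changes with the same new vertex; equivalently, first-order logic with counting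
and `k + 1` variables) distinguishes `A'` from `B'`.

Hence graph isomorphism is in `P` if and only if some polynomial-time function gives the right answer
on all pairs of graphs with this property (whatever it does on the other pairs).

`(A', B')` is obtained from `(A, B)` and a pair `(X, Y)` of non-isomorphic Cai-Fürer-Immerman graphs
over a torus of size `|A| + |B| + 6`, which differ in one place only, as

`A' = P(A, X) + P(B, Y)`, `B' = P(A, Y) + P(B, X)`,

`P(U, V)` the join of `U` plus an isolated vertex and `V` plus an isolated vertex. If `A ≅ B` these
are isomorphic; if not, unique decomposition into (co)components would give `X ≅ Y`.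

Definitions used in the statement: `FinGraph` (`Pool/Agent/H692R2/FinGraph.lean`: a number `n` and a
simple graph on `Fin n`, coded by its adjacency matrix), `bits`, `PolyTime`, `InPP`
(`Pool/Agent/NPC`: coding by bit strings, multi-tape Turing machines with polynomial running time),
`WLEquivalent` (`Pool/Agent/W185/SRG/Defs.lean`), `GIso`, `Hidden`
(`Pool/Agent/R542/GI/Core.lean`).
-/

set_option autoImplicit false

namespace Pool.Agent.Results.MP_f1a348_lc.WLHardCore

open Pool.Agent.NPC Pool.Agent.H692R2 Pool.Agent.NPC.R542.GI

theorem result :
    (∃ F : List Bool → List Bool, PolyTime F ∧ ∀ A B : FinGraph, ∃ A' B' : FinGraph,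
      F (bits (A, B)) = bits (A', B') ∧ Hidden (A', B') ∧ (GIso (A', B') ↔ GIso (A, B))) ∧
    (InPP GIso ↔ ∃ D : List Bool → List Bool, PolyTime D ∧ ∀ A B : FinGraph,
      Hidden (A, B) → (D (bits (A, B)) = [true] ↔ GIso (A, B))) :=
  wl_core

end Pool.Agent.Results.MP_f1a348_lc.WLHardCore
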